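import Pool.Agent.helper51.RMX.Spec

/-! # MP_24e2e7_nt, row rmx:CM2 -/

set_option autoImplicit false
set_option linter.unusedSectionVars false

namespace Pool.Agent.RMX

open Pool.Agent.RB NumberField IsDedekindDomain Module
open scoped nonZeroDivisors Real Classical IsMulCommutative

/-- no prime of `K` above `T` is in `Rm c_K` -/
theorem CM2_Rm (hUNX : UNX_stmt) (F K H : Type) [Field F] [NumberField F] [Field K] [NumberField K] [Field H]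
    [NumberField H] [Algebra F K] [Algebra K H] [Algebra F H] [IsScalarTower F K H] [IsAbelianGalois F K]
    [IsAbelianGalois F H] [IsCMField K] [IsCMField H] (r : ℕ) (D : RData F H r)
    (hck : ∀ x : K, (AlgEquiv.restrictNormalHom K D.c : K ≃ₐ[F] K) x = IsCMField.complexConj K x) :
    ∀ P : HOS K, P.under (𝓞 F) ∈ D.T → P ∉ Rm ((AlgEquiv.restrictNormalHom K D.c : K ≃ₐ[F] K) : K ≃+* K) := by
  intro P hP hR
  obtain ⟨PH, hPH⟩ := (VLU K H).2.1 P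
  have hund : (PH.under (𝓞 K)).under (𝓞 F) = PH.under (𝓞 F) := (VLU K H).2.2.2 F PH
  have hτ : ∀ x : 𝓞 K, (AlgEquiv.restrictNormalHom K D.c : K ≃ₐ[F] K) • x - x ∈ (PH.under (𝓞 K)).asIdeal := by
    intro x
    rw [hPH]
    have h1 := hR x
    have h2 : (((AlgEquiv.restrictNormalHom K D.c : K ≃ₐ[F] K) : K ≃+* K) (x : K) - (x : K)) =
        algebraMap (𝓞 K) K ((AlgEquiv.restrictNormalHom K D.c : K ≃ₐ[F] K) • x - x) := by
      rw [map_sub]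
      rfl
    rw [h2, HeightOneSpectrum.valuation_lt_one_iff_mem] at h1
    exact h1
  obtain ⟨σ, hσ1, hσ2⟩ := INF_lift PH (AlgEquiv.restrictNormalHom K D.c : K ≃ₐ[F] K) hτ
  have hσ : σ = 1 := by
    refine hUNX F H PH (D.hram PH ?_) σ (fun x => ?_)
    · rw [← hund, hPH]
      exact Finset.disjoint_right.1 D.hST hP
    · have h2 : (σ (x : H) - (x : H)) = algebraMap (𝓞 H) H (σ • x - x) := by
        rw [map_sub]
        rfl
      rw [h2, HeightOneSpectrum.valuation_lt_one_iff_mem]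
      exact hσ2 x
  rw [hσ, map_one] at hσ1
  apply IsCMField.complexConj_ne_one K
  apply AlgEquiv.ext
  intro x
  rw [← hck x, ← hσ1]
  rfl

theorem CM2 (hCM1 : CM1_stmt) (hUNX : UNX_stmt) (hPSN : PSN_stmt) : CM2_stmt := by
  intro F L K H _ _ _ _ _ _ _ _ _ _ _ _ _ _ _ _ _ _ _ _ _ _ r D q hq hq2 hcard hck hcl Lf hLf Θ hΘ
  obtain ⟨hL1, hL2⟩ := r_ltr F K H Lf hLf
  have hc2 : D.c * D.c = 1 := by
    apply AlgEquiv.ext
    intro x
    rw [AlgEquiv.mul_apply, D.hc, D.hc, IsCMField.complexConj_apply_apply]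
    rfl
  have hV : ∀ P ∈ {P : HOS K | ∃ j, P.under (𝓞 F) = (D.w j).under (𝓞 F)}, P.under (𝓞 F) ∉ D.T := by
    rintro P ⟨j, hj⟩ hP
    rw [hj, D.hw] at hP
    exact D.hvT j hP
  obtain ⟨i1, i2, d, z, hd, hz⟩ := hCM1 F L K (AlgEquiv.restrictNormalHom K D.c : K ≃ₐ[F] K) hck hcl q hq hq2 hcard
    (fun ψ : (K ≃ₐ[F] K) →* ℂˣ => Lf (ψ.comp (AlgEquiv.restrictNormalHom K : (H ≃ₐ[F] H) →* (K ≃ₐ[F] K))))
    hL1 D.S D.T (CM2_Rm hUNX F K H r D hck) (r_tck F K H D.T D.htor)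
    {P : HOS K | ∃ j, P.under (𝓞 F) = (D.w j).under (𝓞 F)} hV
  refine ⟨i1, i2, d, z, hd, ?_⟩
  have hker : ((AlgEquiv.restrictNormalHom L : (K ≃ₐ[F] K) →* (L ≃ₐ[F] L)).comp
      (AlgEquiv.restrictNormalHom K : (H ≃ₐ[F] H) →* (K ≃ₐ[F] K))).ker =
      (AlgEquiv.restrictNormalHom L : (K ≃ₐ[F] K) →* (L ≃ₐ[F] L)).ker.comap
        (AlgEquiv.restrictNormalHom K : (H ≃ₐ[F] H) →* (K ≃ₐ[F] K)) := by
    ext g
    rfl
  rw [hker]
  obtain ⟨h1, h2, h3⟩ := hPSN F K H D.c hc2 (AlgEquiv.restrictNormalHom L : (K ≃ₐ[F] K) →* (L ≃ₐ[F] L)).ker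
    (fun ψ => LST Lf D.S D.T ψ)
  rw [← h2]
  have hprod : ∏ ψ ∈ PsN (AlgEquiv.restrictNormalHom K : (H ≃ₐ[F] H) →* (K ≃ₐ[F] K)).ker
      ((AlgEquiv.restrictNormalHom L : (K ≃ₐ[F] K) →* (L ≃ₐ[F] L)).ker.comap
        (AlgEquiv.restrictNormalHom K : (H ≃ₐ[F] H) →* (K ≃ₐ[F] K))) D.c, evQ ψ Θ =
      ∏ ψ ∈ odd (AlgEquiv.restrictNormalHom K D.c : K ≃ₐ[F] K) \
        Psi (AlgEquiv.restrictNormalHom L : (K ≃ₐ[F] K) →* (L ≃ₐ[F] L)).ker
          (AlgEquiv.restrictNormalHom K D.c : K ≃ₐ[F] K),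
        LST (fun ψ : (K ≃ₐ[F] K) →* ℂˣ =>
          Lf (ψ.comp (AlgEquiv.restrictNormalHom K : (H ≃ₐ[F] H) →* (K ≃ₐ[F] K)))) D.S D.T ψ := by
    rw [Finset.prod_congr rfl (fun ψ _ => hΘ ψ), h3, ← h1]
    refine Finset.prod_congr rfl fun χ _ => ?_
    exact (hL2 D.S D.T χ).symm
  rw [hprod]
  exact hz

end Pool.Agent.RMX
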